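import Pool.Agent.N589.LL.Tasks

/-!
# LL/07: open subgroups of `GL_2(K_v)`
-/

set_option autoImplicit false

open scoped Topology WithZero MatrixGroups

noncomputable section

namespace N589LL

namespace GlTop

variable {v : Place}

/-- the topology of `K_v` is given by the valuation -/
def NB (v : Place) : Prop := ∀ s : Set (Kv v), s ∈ 𝓝 (0 : Kv v) ↔
  ∃ m : ℤ, {x | val v x ≤ WithZero.exp (-m)} ⊆ s

/-- the closed ball -/
def ball (v : Place) (r : ℤᵐ⁰) : AddSubgroup (Kv v) where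
  carrier := {x | val v x ≤ r}
  add_mem' := by
    intro a b ha hb
    exact ((val v).map_add _ _).trans (max_le ha hb)
  zero_mem' := by simp
  neg_mem' := by
    intro a ha
    simpa using ha

lemma isOpen_ball (h : NB v) (m : ℤ) : IsOpen {x : Kv v | val v x ≤ WithZero.exp (-m)} := by
  have h1 : IsOpen (ball v (WithZero.exp (-m)) : Set (Kv v)) :=
    AddSubgroup.isOpen_of_mem_nhds _ (g := 0) ((h _).2 ⟨m, subset_rfl⟩)
  exact h1

lemma isOpen_one (h : NB v) : IsOpen {x : Kv v | val v x ≤ 1} := by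
  have := isOpen_ball h 0
  simpa using this

lemma isOpen_entries (r : ℤᵐ⁰) (hr : IsOpen {x : Kv v | val v x ≤ r}) (F : Gv v → Matrix (Fin 2) (Fin 2) (Kv v))
    (hF : Continuous F) : IsOpen {g : Gv v | ∀ i j, val v (F g i j) ≤ r} := by
  have e : {g : Gv v | ∀ i j, val v (F g i j) ≤ r} = ⋂ i, ⋂ j, (fun g => F g i j) ⁻¹' {x : Kv v | val v x ≤ r} := by
    ext g; simp
  rw [e]
  refine isOpen_iInter_of_finite fun i => isOpen_iInter_of_finite fun j => hr.preimage ?_
  exact (continuous_apply j).comp ((continuous_apply i).comp hF)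

lemma isOpen_Cv (h : NB v) : IsOpen (Cv v : Set (Gv v)) := by
  have h1 := isOpen_entries 1 (isOpen_one h) (fun g => g.val) Units.continuous_val
  have h2 := isOpen_entries 1 (isOpen_one h) (fun g => g⁻¹.val) (Units.continuous_val.comp continuous_inv)
  exact h1.inter h2

lemma isOpen_Km (h : NB v) (m : ℕ) : IsOpen (Km (val v) m : Set (Gv v)) := by
  have h1 := isOpen_Cv h
  have h2 := isOpen_entries (WithZero.exp (-(m : ℤ))) (isOpen_ball h m) (fun g => g.val - 1)
    (Units.continuous_val.sub continuous_const)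
  exact h1.inter h2

lemma nhds_elt (h : NB v) (a : Kv v) (s : Set (Kv v)) (hs : s ∈ 𝓝 a) :
    ∃ m : ℤ, ∀ x, val v (x - a) ≤ WithZero.exp (-m) → x ∈ s := by
  have h1 : (fun x => x + a) ⁻¹' s ∈ 𝓝 (0 : Kv v) := by
    refine (continuous_id.add continuous_const).continuousAt.preimage_mem_nhds ?_
    simpa using hs
  obtain ⟨m, hm⟩ := (h _).1 h1
  refine ⟨m, fun x hx => ?_⟩
  have := hm (show x - a ∈ {x | val v x ≤ WithZero.exp (-m)} from hx)
  simpa using this

lemma nhds_fun (h : NB v) (A : Fin 2 → Fin 2 → Kv v) (s : Set (Fin 2 → Fin 2 → Kv v))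
    (hs : s ∈ 𝓝 A) :
    ∃ m : ℤ, ∀ X : Fin 2 → Fin 2 → Kv v, (∀ i j, val v (X i j - A i j) ≤ WithZero.exp (-m)) → X ∈ s := by
  rw [nhds_pi, Filter.mem_pi] at hs
  obtain ⟨I, -, t, ht, hsub⟩ := hs
  have h1 : ∀ i, ∃ T : Fin 2 → Set (Kv v), (∀ j, T j ∈ 𝓝 (A i j)) ∧ ∀ x : Fin 2 → Kv v, (∀ j, x j ∈ T j) → x ∈ t i := by
    intro i
    have h2 := ht i
    rw [nhds_pi, Filter.mem_pi] at h2
    obtain ⟨J, -, T, hT, hsubT⟩ := h2
    exact ⟨T, hT, fun x hx => hsubT fun j _ => hx j⟩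
  choose T hT hTs using h1
  have h3 : ∀ i j, ∃ m : ℤ, ∀ x, val v (x - A i j) ≤ WithZero.exp (-m) → x ∈ T i j := fun i j =>
    nhds_elt h _ _ (hT i j)
  choose M hM using h3
  refine ⟨max (max (M 0 0) (M 0 1)) (max (M 1 0) (M 1 1)), fun X hX => hsub fun i _ => hTs i _ fun j => hM i j _ ?_⟩
  refine (hX i j).trans ?_
  rw [WithZero.exp_le_exp, neg_le_neg_iff]
  fin_cases i <;> fin_cases j <;> simp

lemma nhds_mat (h : NB v) (A : Matrix (Fin 2) (Fin 2) (Kv v)) (s : Set (Matrix (Fin 2) (Fin 2) (Kv v)))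
    (hs : s ∈ 𝓝 A) :
    ∃ m : ℤ, ∀ X : Matrix (Fin 2) (Fin 2) (Kv v), (∀ i j, val v ((X - A) i j) ≤ WithZero.exp (-m)) → X ∈ s :=
  nhds_fun h A s hs

/-- every open subgroup contains a principal congruence subgroup -/
lemma exists_Km_le (h : NB v) (H : Subgroup (Gv v)) (hH : IsOpen (H : Set (Gv v))) :
    ∃ m, Km (val v) m ≤ H := by
  have h1 : (H : Set (Gv v)) ∈ 𝓝 (1 : Gv v) := hH.mem_nhds H.one_mem
  rw [(Units.isEmbedding_embedProduct (M := Matrix (Fin 2) (Fin 2) (Kv v))).isInducing.nhds_eq_comap,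
    Filter.mem_comap] at h1
  obtain ⟨W, hW, hsub⟩ := h1
  rw [Units.embedProduct_apply, nhds_prod_eq, Filter.mem_prod_iff] at hW
  obtain ⟨W1, hW1, W2, hW2, hW12⟩ := hW
  have hW2' : MulOpposite.op ⁻¹' W2 ∈ 𝓝 (1 : Matrix (Fin 2) (Fin 2) (Kv v)) := by
    refine MulOpposite.continuous_op.continuousAt.preimage_mem_nhds ?_
    simpa using hW2
  obtain ⟨m1, hm1⟩ := nhds_mat h _ W1 (by simpa using hW1)
  obtain ⟨m2, hm2⟩ := nhds_mat h _ _ hW2'
  refine ⟨(max m1 m2).toNat, fun g hg => hsub ?_⟩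
  have hle : ∀ m : ℤ, m ≤ max m1 m2 → WithZero.exp (-(((max m1 m2).toNat : ℕ) : ℤ)) ≤
      WithZero.exp (-m) := by
    intro m hm
    rw [WithZero.exp_le_exp, neg_le_neg_iff]
    exact hm.trans (Int.self_le_toNat _)
  refine hW12 ⟨?_, ?_⟩
  · exact hm1 _ fun i j => (hg.2 i j).trans (hle _ (le_max_left _ _))
  · exact hm2 _ fun i j => ((inv_mem hg).2 i j).trans (hle _ (le_max_right _ _))

lemma finite_quot [CompactSpace (Ov v)] (h : NB v) (m : ℕ) :
    ∃ (B : AddSubgroup (Ov v)), (∀ x : Ov v, x ∈ B ↔ val v x ≤ WithZero.exp (-(m : ℤ))) ∧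
      Finite (Ov v ⧸ B) := by
  let B : AddSubgroup (Ov v) := (ball v (WithZero.exp (-(m : ℤ)))).comap (Ov v).subtype.toAddMonoidHom
  refine ⟨B, fun x => Iff.rfl, ?_⟩
  have hB : IsOpen (B : Set (Ov v)) := by
    have := (isOpen_ball h (m : ℤ)).preimage (continuous_subtype_val (p := fun x => x ∈ Ov v))
    exact this
  exact AddSubgroup.quotient_finite_of_isOpen B hB

lemma relIndex_Km [CompactSpace (Ov v)] (h : NB v) (m : ℕ) : (Km (val v) m).relIndex (Cv v) ≠ 0 := by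
  obtain ⟨B, hB, hfin⟩ := finite_quot h m
  rw [Subgroup.relIndex]
  have : Finite (Cv v ⧸ (Km (val v) m).subgroupOf (Cv v)) := by
    let φ : (Cv v ⧸ (Km (val v) m).subgroupOf (Cv v)) → (Fin 2 → Fin 2 → Ov v ⧸ B) := fun q i j =>
      QuotientAddGroup.mk (⟨(q.out : Gv v).val i j, q.out.2.1 i j⟩ : Ov v)
    refine Finite.of_injective φ ?_
    intro q q' hqq
    rw [← q.out_eq', ← q'.out_eq', QuotientGroup.eq, Subgroup.mem_subgroupOf]
    refine ⟨?_, fun i j => ?_⟩
    · exact ((q.out)⁻¹ * q'.out).2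
    · have h1 : ∀ i j, val v ((q'.out : Gv v).val i j - (q.out : Gv v).val i j) ≤ WithZero.exp (-(m : ℤ)) := by
        intro i j
        have h2 := congrFun (congrFun hqq i) j
        simp only [φ] at h2
        rw [QuotientAddGroup.eq, hB] at h2
        have e : (q'.out : Gv v).val i j - (q.out : Gv v).val i j =
            -(q.out : Gv v).val i j + (q'.out : Gv v).val i j := by ring
        rw [e]
        exact h2
      have e : ((((q.out)⁻¹ * q'.out : Cv v) : Gv v).val - 1) =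
          (q.out : Gv v)⁻¹.val * ((q'.out : Gv v).val - (q.out : Gv v).val) := by
        rw [mul_sub, Subgroup.coe_mul, Units.val_mul, Subgroup.coe_inv, Units.inv_mul]
      rw [e, Matrix.mul_apply, Fin.sum_univ_two]
      refine ((val v).map_add _ _).trans (max_le ?_ ?_) <;> rw [map_mul] <;>
        exact mul_le_of_le_one_of_le (q.out.2.2 _ _) (h1 _ _)
  exact Subgroup.index_ne_zero_of_finite

end GlTop

open GlTop in
/-- LL/07 -/
theorem TaskGl_proof (hLT : TaskLocTop) : TaskGl := by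
  intro v
  obtain ⟨-, -, hNB, hc⟩ := hLT v
  have hNB' : NB v := hNB
  refine ⟨isOpen_Km hNB', exists_Km_le hNB', fun H hH => ?_, isOpen_Cv hNB', ?_⟩
  · obtain ⟨m, hm⟩ := exists_Km_le hNB' H hH
    intro h0
    have h1 := Subgroup.relIndex_dvd_of_le_left (Cv v) hm
    rw [h0, zero_dvd_iff] at h1
    exact relIndex_Km hNB' m h1
  · exact Subgroup.isOpen_mono (Km_one_le_Iw (val v)) (isOpen_Km hNB' 1)

end N589LL
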