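import Pool.Agent.N589.LL.Tasks

/-!
# LL/19: irreducible quotients of cyclic smooth representations
-/

set_option autoImplicit false

open scoped Topology
open RestrictedProduct

noncomputable section

namespace N589LL

namespace CycQ

section general

variable {G : Type} [Group G] {E : Type} [AddCommGroup E] [Module ℂ E]

lemma cyc_stable (ρ : Representation ℂ G E) (x : E) (g : G) {y : E} (hy : y ∈ cyc ρ x) :
    ρ g y ∈ cyc ρ x := by
  unfold cyc at *
  refine Submodule.span_induction (p := fun y _ => ρ g y ∈ Submodule.span ℂ (Set.range fun g => ρ g x))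
    ?_ ?_ ?_ ?_ hy
  · rintro _ ⟨h, rfl⟩
    refine Submodule.subset_span ⟨g * h, ?_⟩
    simp only [map_mul, Module.End.mul_apply]
  · simp
  · intro a b _ _ ha hb
    rw [map_add]
    exact add_mem ha hb
  · intro c a _ ha
    rw [_root_.map_smul]
    exact Submodule.smul_mem _ _ ha

lemma mem_cyc (ρ : Representation ℂ G E) (x : E) : x ∈ cyc ρ x :=
  Submodule.subset_span ⟨1, by simp⟩

/-- the representation on a cyclic subspace -/
def cycRep (ρ : Representation ℂ G E) (x : E) : Representation ℂ G (cyc ρ x) where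
  toFun g := (ρ g).restrict fun _ h => cyc_stable ρ x g h
  map_one' := by ext φ; simp [LinearMap.restrict_apply]
  map_mul' a b := by ext φ; simp [LinearMap.restrict_apply]

lemma cycRep_coe (ρ : Representation ℂ G E) (x : E) (g : G) (y : cyc ρ x) :
    ((cycRep ρ x g y : cyc ρ x) : E) = ρ g y := rfl

lemma top_of_mem (ρ : Representation ℂ G E) (x : E) (W : Submodule ℂ (cyc ρ x))
    (hW : ∀ g, ∀ y ∈ W, cycRep ρ x g y ∈ W) (hx : (⟨x, mem_cyc ρ x⟩ : cyc ρ x) ∈ W) : W = ⊤ := by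
  rw [eq_top_iff]
  rintro ⟨y, hy⟩ -
  have hy' := hy
  unfold cyc at hy'
  refine Submodule.span_induction
    (p := fun y (hy : y ∈ cyc ρ x) => (⟨y, hy⟩ : cyc ρ x) ∈ W) ?_ ?_ ?_ ?_ hy'
  · rintro _ ⟨h, rfl⟩
    exact hW h _ hx
  · exact W.zero_mem
  · intro a b ha hb h1 h2
    exact W.add_mem h1 h2
  · intro c a ha h1
    exact W.smul_mem c h1

/-- a maximal stable subspace which does not contain the generator -/
lemma exists_max (ρ : Representation ℂ G E) (x : E) (hx : x ≠ 0) :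
    ∃ N : Submodule ℂ (cyc ρ x), (∀ g, ∀ y ∈ N, cycRep ρ x g y ∈ N) ∧
      (⟨x, mem_cyc ρ x⟩ : cyc ρ x) ∉ N ∧
      ∀ W : Submodule ℂ (cyc ρ x), (∀ g, ∀ y ∈ W, cycRep ρ x g y ∈ W) → N ≤ W →
        W = N ∨ W = ⊤ := by
  let S : Set (Submodule ℂ (cyc ρ x)) := {N | (∀ g, ∀ y ∈ N, cycRep ρ x g y ∈ N) ∧
      (⟨x, mem_cyc ρ x⟩ : cyc ρ x) ∉ N}
  have hbot : (⊥ : Submodule ℂ (cyc ρ x)) ∈ S := by
    refine ⟨fun g y hy => ?_, fun h => ?_⟩
    · rw [Submodule.mem_bot] at hy ⊢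
      rw [hy, map_zero]
    · rw [Submodule.mem_bot] at h
      exact hx (congrArg Subtype.val h)
  obtain ⟨N, -, hN⟩ := zorn_le_nonempty₀ S (fun c hcS hc y hy => by
    have hne : c.Nonempty := ⟨y, hy⟩
    have hdir : DirectedOn (· ≤ ·) c := hc.directedOn
    refine ⟨sSup c, ⟨fun g z hz => ?_, fun hz => ?_⟩, fun z hz => le_sSup hz⟩
    · rw [Submodule.mem_sSup_of_directed hne hdir] at hz ⊢
      obtain ⟨W, hW, hzW⟩ := hz
      exact ⟨W, hW, (hcS hW).1 g z hzW⟩
    · rw [Submodule.mem_sSup_of_directed hne hdir] at hz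
      obtain ⟨W, hW, hzW⟩ := hz
      exact (hcS hW).2 hzW) ⊥ hbot
  refine ⟨N, hN.1.1, hN.1.2, fun W hW hNW => ?_⟩
  by_cases h : (⟨x, mem_cyc ρ x⟩ : cyc ρ x) ∈ W
  · exact Or.inr (top_of_mem ρ x W hW h)
  · exact Or.inl (le_antisymm (hN.2 (⟨hW, h⟩ : W ∈ S) hNW) hNW)

/-- the quotient representation is irreducible -/
lemma irred_quotient (ρ : Representation ℂ G E) (x : E) (N : Submodule ℂ (cyc ρ x))
    (hN : ∀ g, ∀ y ∈ N, cycRep ρ x g y ∈ N) (hxN : (⟨x, mem_cyc ρ x⟩ : cyc ρ x) ∉ N)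
    (hmax : ∀ W : Submodule ℂ (cyc ρ x), (∀ g, ∀ y ∈ W, cycRep ρ x g y ∈ W) → N ≤ W →
        W = N ∨ W = ⊤) :
    Irred ((cycRep ρ x).quotient N hN) := by
  constructor
  · refine ⟨⟨N.mkQ ⟨x, mem_cyc ρ x⟩, 0, ?_⟩⟩
    intro h
    rw [Submodule.mkQ_apply, Submodule.Quotient.mk_eq_zero] at h
    exact hxN h
  · intro W hW
    have h1 := hmax (W.comap N.mkQ) (fun g y hy => by
      rw [Submodule.mem_comap] at hy ⊢
      exact hW g _ hy) (fun y hy => by
      rw [Submodule.mem_comap, Submodule.mkQ_apply, (Submodule.Quotient.mk_eq_zero N).2 hy]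
      exact W.zero_mem)
    have h2 : (W.comap N.mkQ).map N.mkQ = W := Submodule.map_comap_eq_of_surjective
      N.mkQ_surjective W
    rcases h1 with h1 | h1
    · left
      rw [← h2, h1, Submodule.mkQ_map_self]
    · right
      rw [← h2, h1, Submodule.map_top, Submodule.range_mkQ]

variable [TopologicalSpace G] [IsTopologicalGroup G]

/-- every vector of a cyclic representation with smooth generator is smooth -/
lemma smooth_cyc (ρ : Representation ℂ G E) (x : E)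
    (hx : ∃ U : Subgroup G, IsOpen (U : Set G) ∧ x ∈ fixedBy ρ U) (y : E) (hy : y ∈ cyc ρ x) :
    ∃ U : Subgroup G, IsOpen (U : Set G) ∧ y ∈ fixedBy ρ U := by
  obtain ⟨U, hU, hxU⟩ := hx
  unfold cyc at hy
  refine Submodule.span_induction
    (p := fun y _ => ∃ U : Subgroup G, IsOpen (U : Set G) ∧ y ∈ fixedBy ρ U) ?_ ?_ ?_ ?_ hy
  · rintro _ ⟨g, rfl⟩
    refine ⟨U.comap (MulAut.conj g⁻¹).toMonoidHom, ?_, ?_⟩
    · rw [Subgroup.coe_comap]
      refine hU.preimage ?_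
      have : (⇑(MulAut.conj g⁻¹).toMonoidHom : G → G) = fun h => g⁻¹ * h * g := by
        funext h
        simp
      rw [this]
      fun_prop
    · intro h hh
      rw [Subgroup.mem_comap] at hh
      have hh' : g⁻¹ * h * g ∈ U := by simpa using hh
      show ρ h (ρ g x) = ρ g x
      have e : ρ h (ρ g x) = ρ g (ρ (g⁻¹ * h * g) x) := by
        rw [← Module.End.mul_apply, ← Module.End.mul_apply, ← map_mul, ← map_mul]
        congr 2
        group
      rw [e, hxU _ hh']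
  · exact ⟨⊤, isOpen_univ, Submodule.zero_mem _⟩
  · rintro a b _ _ ⟨U1, hU1, h1⟩ ⟨U2, hU2, h2⟩
    refine ⟨U1 ⊓ U2, hU1.inter hU2, Submodule.add_mem _ (fun h hh => h1 h hh.1)
      (fun h hh => h2 h hh.2)⟩
  · rintro c a _ ⟨U1, hU1, h1⟩
    exact ⟨U1, hU1, Submodule.smul_mem _ _ h1⟩

end general

end CycQ

open CycQ in
/-- LL/19 -/
theorem TaskQuot_proof (hGA : TaskGA) : TaskQuot := by
  intro f hf0 hfU
  have : IsTopologicalGroup GA := hGA.1
  have hsm : ∃ U : Subgroup GA, IsOpen (U : Set GA) ∧ f ∈ fixedBy (Rt GA) U := by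
    obtain ⟨U, hU, h⟩ := hfU
    exact ⟨U, hU, fun u hu => funext fun g => h u hu g⟩
  obtain ⟨N, hN, hxN, hmax⟩ := exists_max (Rt GA) f hf0
  refine ⟨fun g F hF => cyc_stable _ _ g hF,
    { E := cyc (Rt GA) f ⧸ N
      ρ := (cycRep (Rt GA) f).quotient N hN
      irr := irred_quotient (Rt GA) f N hN hxN hmax
      smooth := ?_ }, N.mkQ, N.mkQ_surjective, fun g F => rfl, mem_cyc _ _, ?_⟩
  · intro x
    obtain ⟨⟨y, hy⟩, rfl⟩ := N.mkQ_surjective x
    obtain ⟨U, hU, h⟩ := smooth_cyc (Rt GA) f hsm y hy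
    refine ⟨U, hU, fun u hu => ?_⟩
    have h1 : Rt GA u y = y := h u hu
    have h2 : cycRep (Rt GA) f u ⟨y, hy⟩ = ⟨y, hy⟩ := by
      apply Subtype.ext
      rw [cycRep_coe]
      exact h1
    exact congrArg N.mkQ h2
  · intro h
    rw [Submodule.mkQ_apply] at h
    exact hxN ((Submodule.Quotient.mk_eq_zero N).1 h)

end N589LL
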